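import Pool.Agent.KS6_77.CDim.Main

set_option autoImplicit false

namespace Pool.Agent.Results.MP_8848fa_gt.NowhereFiniteDim

open Set TopologicalSpace

/-- `IndLT k B`: the large inductive dimension of the subspace `B` is less than `k`
(so `IndLT 0 B` means `B = ∅`, and `IndLT (k+1) B` means `Ind B ≤ k`) -/
def IndLT {X : Type*} [TopologicalSpace X] : ℕ → Set X → Prop
  | 0, B => B = ∅
  | (k + 1), B => ∀ C U : Set X, IsClosed C → IsOpen U → C ∩ B ⊆ U →
      ∃ V : Set X, IsOpen V ∧ C ∩ B ⊆ V ∧ closure (V ∩ B) ∩ B ⊆ U ∧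
        IndLT k ((closure (V ∩ B) ∩ B) \ V)

theorem eqPP {X : Type*} [TopologicalSpace X] : ∀ (k : ℕ) (B : Set X),
    IndLT k B ↔ Pool.Agent.Helper520.CD.PP k B
  | 0, _ => Iff.rfl
  | (k + 1), B => by
    show (∀ C U : Set X, IsClosed C → IsOpen U → C ∩ B ⊆ U →
      ∃ V : Set X, IsOpen V ∧ C ∩ B ⊆ V ∧ closure (V ∩ B) ∩ B ⊆ U ∧
        IndLT k ((closure (V ∩ B) ∩ B) \ V)) ↔ (∀ C U : Set X, IsClosed C → IsOpen U → C ∩ B ⊆ U →
      ∃ V : Set X, IsOpen V ∧ C ∩ B ⊆ V ∧ closure (V ∩ B) ∩ B ⊆ U ∧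
        Pool.Agent.Helper520.CD.PP k ((closure (V ∩ B) ∩ B) \ V))
    simp only [eqPP k]

/-- **A countable-dimensional, nowhere finite-dimensional separable metric space in which every
`F_σ` subspace (in particular every closed and every open subspace) is zero-dimensional or
infinite-dimensional.** In particular no `F_σ` subspace has dimension `n`, for any `n ≥ 1`. -/
theorem result :
    ∃ (X : Type) (_ : MetricSpace X) (_ : SeparableSpace X), Nonempty X ∧
      (∃ Z : ℕ → Set X, (∀ i, IndLT 1 (Z i)) ∧ (⋃ i, Z i) = univ) ∧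
      (∀ U : Set X, IsOpen U → U.Nonempty → ∀ k, ¬ IndLT k U) ∧
      (∀ F : ℕ → Set X, (∀ i, IsClosed (F i)) →
        IndLT 1 (⋃ i, F i) ∨ ∀ k, ¬ IndLT k (⋃ i, F i)) := by
  obtain ⟨X, h1, h2, h3, h4⟩ := Pool.Agent.KS6_77.CDim.main
  have hne : Nonempty X := by
    obtain ⟨x, hx⟩ := h1.nonempty
    exact ⟨⟨x, hx⟩⟩
  let _ : MetricSpace X := TopologicalSpace.metrizableSpaceMetric X
  simp only [eqPP]
  exact ⟨X, inferInstance, inferInstance, hne, h2, h3, h4⟩

end Pool.Agent.Results.MP_8848fa_gt.NowhereFiniteDim
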